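import Pool.Agent.W93.PG7
import Pool.Agent.Y885.WI3
import Pool.Agent.H560R3.GB.Defs

/-!
# Goldbach representations in primorial intervals, up to very few elements of an arbitrary set which meets
every interval `[x, l x]`

Definitions used (in `Pool.Agent.H560R3.GB`): `C₂`: the twin prime constant
`∏_{p > 2} (1 - 1 / (p - 1) ^ 2)`; `sing m`: the singular series `2 C₂ ∏_{p ∣ m, p > 2} (p - 1) / (p - 2)`.
-/

set_option autoImplicit false

namespace Pool.Agent.Results.MP_484fb8_nt.ElementsOfAnySet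

open Finset Pool.Agent.H560R3.GB

/-- `#(n)`: the product of the first `n` primes. -/
noncomputable def P (n : ℕ) : ℕ := ∏ i ∈ range n, Nat.nth Nat.Prime i

/-- The number of primes `p` in the `n`-th primorial interval such that `m - p` is a prime which lies in the
`n`-th or in the `n + 1`-st primorial interval. -/
noncomputable def R (n m : ℕ) : ℕ :=
  ((Icc (P (n - 1) + 1) (P n + 1)).filter
    (fun p => p.Prime ∧ (m - p).Prime ∧ P (n - 1) + 1 ≤ m - p ∧ m - p ≤ P (n + 1) + 1)).card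

/-- If `m` belongs to the `n + 1`-st primorial interval (`n ≥ 1`), then `m = p + q` where `p` is a prime in the
`n`-th primorial interval and `q` is a prime in the `n`-th or in the `n + 1`-st one; moreover, up to a relative
error of at most `ε`, the number of these representations is `sing m * #(n) / log ^ 2 m`. -/
def Holds (ε : ℝ) (m : ℕ) : Prop :=
  ∀ n : ℕ, 1 ≤ n → P n + 1 ≤ m → m ≤ P (n + 1) + 1 →
    (∃ p q : ℕ, p.Prime ∧ q.Prime ∧ m = p + q ∧ P (n - 1) + 1 ≤ p ∧ p ≤ P n + 1 ∧ P (n - 1) + 1 ≤ q ∧ q ≤ P (n + 1) + 1) ∧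
    |(R n m : ℝ) - sing m * P n / Real.log m ^ 2| ≤ ε * (sing m * P n / Real.log m ^ 2)

lemma holds_of (ε : ℝ) (hε : 0 < ε) : ∃ m₀ : ℕ, ∀ m : ℕ, m₀ ≤ m → 2 ∣ m →
    Pool.Agent.W93.PG.WinP (min ε (1 / 2) / 4) 2 m → Holds ε m := by
  obtain ⟨m₀, h0⟩ := Pool.Agent.W93.PG.reps_of_win (min ε (1 / 2)) (lt_min hε (by norm_num))
    ((min_le_right _ _).trans (by norm_num))
  refine ⟨m₀ + 3, ?_⟩
  intro m hm _ hwin n hn h2 h3
  have h4 := h0 m (by omega) hwin n hn h2 h3
  have hm0 : (3 : ℝ) ≤ m := by exact_mod_cast (by omega : 3 ≤ m)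
  have hlog : 0 < Real.log m := Real.log_pos (by linarith)
  have hs := Pool.Agent.W93.GB.one_le_sing m
  have hP : (0 : ℝ) < P n := by exact_mod_cast Pool.Agent.W93.PG.PR_pos n
  have hmain : 0 < sing m * P n / Real.log m ^ 2 := by positivity
  have hR : R n m = Pool.Agent.W93.PG.reps n m := rfl
  have hPR : Pool.Agent.W93.PG.PR n = P n := rfl
  rw [← hR, hPR] at h4
  have h5 : |(R n m : ℝ) - sing m * P n / Real.log m ^ 2| ≤ ε * (sing m * P n / Real.log m ^ 2) :=
    h4.trans (mul_le_mul_of_nonneg_right (min_le_left _ _) hmain.le)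
  have h6 : |(R n m : ℝ) - sing m * P n / Real.log m ^ 2| ≤ 1 / 2 * (sing m * P n / Real.log m ^ 2) :=
    h4.trans (mul_le_mul_of_nonneg_right (min_le_right _ _) hmain.le)
  refine ⟨?_, h5⟩
  have h7 : (0 : ℝ) < R n m := by
    rw [abs_le] at h6
    linarith [h6.1]
  have h8 : 0 < R n m := by exact_mod_cast h7
  unfold R at h8
  rw [card_pos] at h8
  obtain ⟨p, hp⟩ := h8
  rw [mem_filter, mem_Icc] at hp
  obtain ⟨⟨p1, p2⟩, p3, p4, p5, p6⟩ := hp
  exact ⟨p, m - p, p3, p4, by have := p4.pos; omega, p1, p2, p5, p6⟩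

/-- For every `l ≥ 2` there is a constant `C` such that for all `B` and `ε > 0` there is an `N₀` with the
following property. Let `A` be an arbitrary set of integers which contains an element of every interval
`[x, l x]`, `x ≥ 1` (the constants `C` and `N₀` do not depend on `A`). Then every even integer `N ≥ N₀` is the sum
of an integer `m` and of at most `C (log log N) ^ 2` distinct elements of `A`, where the assertion of the
problem holds for `m` and the number of the representations required there is as predicted, up to a relative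
error of at most `ε`; moreover the elements of `A` can be chosen between `log ^ B N` and `N / log ^ B N`. -/
theorem result (l : ℕ) (hl : 2 ≤ l) : ∃ C : ℝ, ∀ (B : ℕ) (ε : ℝ), 0 < ε → ∃ N₀ : ℕ, ∀ A : Set ℕ,
    (∀ x : ℕ, 1 ≤ x → ∃ a ∈ A, x ≤ a ∧ a ≤ l * x) → ∀ N : ℕ, N₀ ≤ N → Even N →
      ∃ S : Finset ℕ, (∀ a ∈ S, a ∈ A ∧ Real.log N ^ B ≤ a ∧ (a : ℝ) ≤ N / Real.log N ^ B) ∧
        (S.card : ℝ) ≤ C * Real.log (Real.log N) ^ 2 ∧ ∃ m : ℕ, m + ∑ a ∈ S, a = N ∧ Holds ε m := by
  obtain ⟨C, hC⟩ := Pool.Agent.Y885.las_windows l hl 2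
  refine ⟨C, fun B ε hε => ?_⟩
  obtain ⟨m₀, h0⟩ := holds_of ε hε
  exact hC B m₀ (min ε (1 / 2) / 4) (div_pos (lt_min hε (by norm_num)) (by norm_num)) (Holds ε) h0

end Pool.Agent.Results.MP_484fb8_nt.ElementsOfAnySet
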