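import Pool.Agent.Y879.PR.Gold

set_option autoImplicit false

/-!
EVERY large even `m` in the interval `I_(n+1)` is the sum of an ACTUAL prime of `I_n` and an almost prime
of `I_n` or `I_(n+1)`: the number of these primes, and the Poisson law of the almost prime pairs which
follow them.
-/

namespace Pool.Agent.Results.MP_484fb8_nt.PrimeSummand

open Finset Filter
open Pool.Agent.Y879.PR

/-- the primorial: the product of the first `n` primes -/
noncomputable def P (n : ℕ) : ℕ := ∏ i ∈ range n, Nat.nth Nat.Prime i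

open Classical in
/-- the PRIMES `p` in `I_n` with `m - p` in `I_n` or `I_(n+1)` such that neither `p` nor `m - p` has a prime
factor `q ≤ m ^ (1 / r)` -/
noncomputable def Sm (n r m : ℕ) : Finset ℕ :=
  (Icc (P (n - 1) + 1) (P n + 1)).filter (fun p => p.Prime ∧
    (P (n - 1) + 1 ≤ m - p ∧ m - p ≤ P (n + 1) + 1) ∧ GGood m r p)

lemma P_succ (n : ℕ) : P (n + 1) = P n * Nat.nth Nat.Prime n := Finset.prod_range_succ _ _

lemma P_pos (n : ℕ) : 0 < P n :=
  Finset.prod_pos fun i _ => (Nat.prime_nth_prime i).pos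

lemma nth_le (n : ℕ) : Nat.nth Nat.Prime n ≤ P n + 1 := by
  have h1 : P n + 1 ≠ 1 := by
    have := P_pos n
    omega
  have hq := Nat.minFac_prime h1
  have hqd := Nat.minFac_dvd (P n + 1)
  refine le_trans ?_ (Nat.minFac_le (by omega : 0 < P n + 1))
  by_contra hcon
  rw [not_le] at hcon
  obtain ⟨q, hqq⟩ : ∃ q, q = (P n + 1).minFac := ⟨_, rfl⟩
  rw [← hqq] at hq hqd hcon
  have h2 : Nat.nth Nat.Prime (Nat.count Nat.Prime q) = q := Nat.nth_count hq
  have h3 : Nat.count Nat.Prime q < n := by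
    rw [← h2] at hcon
    exact (Nat.nth_lt_nth Nat.infinite_setOfPred_prime).1 hcon
  have h4 : q ∣ P n := by
    rw [← h2]
    exact Finset.dvd_prod_of_mem _ (Finset.mem_range.2 h3)
  have h5 : q ∣ 1 := (Nat.dvd_add_right h4).1 hqd
  exact hq.one_lt.ne' (Nat.dvd_one.1 h5)

lemma P_ge (n : ℕ) (hn : 1 ≤ n) : (n + 1) * P (n - 1) ≤ P n := by
  obtain ⟨k, rfl⟩ : ∃ k, n = k + 1 := ⟨n - 1, by omega⟩
  rw [Nat.add_sub_cancel, P_succ, mul_comm]
  exact Nat.mul_le_mul_left _ (Nat.add_two_le_nth_prime k)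

/-- **A prime summand in the primorial interval.** For all `0 < ε ≤ 1` and `x₀` there is `r₀` such that for
every `r ≥ r₀`, all large `n` and EVERY even `m` in `I_(n+1)`: `m - p` has at most `r` prime factors for all
`p ∈ Sm n r m`; the number of elements of `Sm n r m` is `(1 + η) P_n W / log P_n` with `|η| ≤ ε`; and at
these `p` the number of the good numbers in `(p, p + T]` has the Poisson law of mean `T V`, up to `ε`, for
all `T` with `T V ≤ x₀`. -/
theorem result (x₀ ε : ℝ) (hε : 0 < ε) (hε1 : ε ≤ 1) :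
    ∃ r₀ : ℕ, ∀ r : ℕ, r₀ ≤ r → ∃ n₀ : ℕ, ∀ n : ℕ, n₀ ≤ n → ∀ m : ℕ, Even m → P n + 1 ≤ m →
      m ≤ P (n + 1) + 1 →
      (∀ p ∈ Sm n r m, (m - p).primeFactorsList.length ≤ r) ∧
      (0 < GW m r ∧
        |((Sm n r m).card : ℝ) * Real.log (P n) - P n * GW m r| ≤ ε * (P n * GW m r)) ∧
      ∀ T : ℕ, T * GV m r ≤ x₀ → ∀ B : Finset ℕ,
        |(((Sm n r m).filter (fun p => Set.ncard {k | k ∈ Ioc p (p + T) ∧ GGood m r k} ∈ B)).card : ℝ) -
          (Sm n r m).card * ∑ j ∈ B, Real.exp (-(T * GV m r)) * (T * GV m r) ^ j / j.factorial| ≤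
          ε * (Sm n r m).card := by
  classical
  obtain ⟨r1, hr12, hlaw⟩ := gold_full (1 / 3) (1 / 2) x₀ (ε / 4) (by norm_num) (by norm_num)
    (by norm_num) (by positivity) (by linarith)
  refine ⟨r1, ?_⟩
  intro r hr
  have hr2 : 2 ≤ r := hr12.trans hr
  obtain ⟨N0, hN0⟩ := eventually_atTop.1 ((hlaw r hr).and (Pool.Agent.Y879.GL.level_ok r hr2))
  have hlog : ∀ᶠ N : ℕ in atTop, 16 * Real.log 2 / ε ≤ Real.log N :=
    (Real.tendsto_log_atTop.comp tendsto_natCast_atTop_atTop).eventually_ge_atTop _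
  obtain ⟨N1, hN1⟩ := eventually_atTop.1 hlog
  refine ⟨max (max N0 N1) (max 10 ⌈48 / ε⌉₊), ?_⟩
  intro n hn m hev hm1 hm2
  have hn0 : N0 ≤ n := ((le_max_left _ _).trans (le_max_left _ _)).trans hn
  have hn1 : N1 ≤ n := ((le_max_right _ _).trans (le_max_left _ _)).trans hn
  have hn10 : 10 ≤ n := ((le_max_left _ _).trans (le_max_right _ _)).trans hn
  have hnε : 48 / ε ≤ n := by
    have h5 : ⌈48 / ε⌉₊ ≤ n := ((le_max_right _ _).trans (le_max_right _ _)).trans hn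
    exact (Nat.le_ceil _).trans (by exact_mod_cast h5)
  obtain ⟨A, hA⟩ : ∃ A, A = P n := ⟨_, rfl⟩
  obtain ⟨A1, hA1⟩ : ∃ A1, A1 = P (n - 1) := ⟨_, rfl⟩
  have hA1pos : 0 < A1 := by rw [hA1]; exact P_pos _
  have hge : (n + 1) * A1 ≤ A := by rw [hA, hA1]; exact P_ge n (by omega)
  have hnA : n + 1 ≤ A := (Nat.le_mul_of_pos_right _ hA1pos).trans hge
  have h10 : 10 * A1 ≤ A := (Nat.mul_le_mul_right _ (by omega)).trans hge
  have hsucc : P (n + 1) ≤ A * (A + 1) := by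
    rw [P_succ, ← hA]
    apply Nat.mul_le_mul_left
    rw [hA]
    exact nth_le n
  rw [← hA] at hm1 ⊢
  obtain ⟨h1, h3⟩ := hN0 m (by omega)
  have hAr : (10 : ℝ) ≤ A := by exact_mod_cast (by omega : 10 ≤ A)
  have hW0 := GW_pos m r hev
  have hz1 : (1 : ℝ) < (m : ℝ) ^ (1 / (r : ℝ)) := by
    have h4 : ((3 : ℕ) : ℝ) ≤ (m : ℝ) ^ (1 / (r : ℝ)) := (Nat.le_floor_iff (by positivity)).1 h3.1
    have h5 : (3 : ℝ) ≤ (m : ℝ) ^ (1 / (r : ℝ)) := by exact_mod_cast h4
    linarith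
  -- the window
  obtain ⟨Y, hY⟩ : ∃ Y, Y = min (A + 1) (m - A1 - 1) - A1 := ⟨_, rfl⟩
  have hYle : A1 + Y = min (A + 1) (m - A1 - 1) := by
    rw [hY]
    omega
  have hSm : Sm n r m = (Ioc A1 (A1 + Y)).filter (fun p => p.Prime ∧ GGood m r p) := by
    ext p
    simp only [Sm, Finset.mem_filter, Finset.mem_Icc, Finset.mem_Ioc, ← hA, ← hA1]
    rw [hYle]
    constructor
    · rintro ⟨⟨a1, a2⟩, a3, ⟨a4, a5⟩, a6⟩
      exact ⟨⟨by omega, by omega⟩, a3, a6⟩
    · rintro ⟨⟨a1, a2⟩, a3, a6⟩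
      exact ⟨⟨by omega, by omega⟩, a3, ⟨by omega, by omega⟩, a6⟩
  have hXθ : (m : ℝ) ^ (1 / 3 : ℝ) ≤ ((A + 1 : ℕ) : ℝ) := by
    have h4 : m ≤ (A + 1) ^ 3 := by
      have : A * (A + 1) + 1 ≤ (A + 1) ^ 3 := by nlinarith
      omega
    have h5 : (m : ℝ) ≤ ((A + 1 : ℕ) : ℝ) ^ 3 := by exact_mod_cast h4
    calc (m : ℝ) ^ (1 / 3 : ℝ) ≤ (((A + 1 : ℕ) : ℝ) ^ 3) ^ (1 / 3 : ℝ) :=
          Real.rpow_le_rpow (Nat.cast_nonneg _) h5 (by norm_num)
      _ = ((A + 1 : ℕ) : ℝ) := by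
        rw [← Real.rpow_natCast, ← Real.rpow_mul (Nat.cast_nonneg _)]
        norm_num
  have hY2 : A + 1 ≤ 2 * Y := by omega
  have hmain := h1 hev (A + 1) A1 Y hXθ (by
    have : ((A + 1 : ℕ) : ℝ) ≤ 2 * Y := by exact_mod_cast hY2
    linarith) (by omega)
  rw [← hSm] at hmain
  refine ⟨?_, ⟨hW0, ?_⟩, ?_⟩
  · intro p hp
    simp only [Sm, Finset.mem_filter, Finset.mem_Icc, ← hA, ← hA1] at hp
    obtain ⟨⟨a1, a2⟩, a3, ⟨a4, a5⟩, a6⟩ := hp
    exact (ggood_few m r (by omega) (by omega) hz1 p a3.pos (by omega) a6).2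
  · have hL := hN1 A (by omega)
    have hlog2 : 0 < Real.log 2 := Real.log_pos (by norm_num)
    have hlA : Real.log 2 ≤ ε / 16 * Real.log A := by
      rw [div_le_iff₀ hε] at hL
      linarith
    have hcA : ((A + 1 : ℕ) : ℝ) = A + 1 := by push_cast; rfl
    have e1 : Real.log A ≤ Real.log ((A + 1 : ℕ) : ℝ) := by
      rw [hcA]
      exact Real.log_le_log (by linarith) (by linarith)
    have e2 : Real.log ((A + 1 : ℕ) : ℝ) ≤ Real.log 2 + Real.log A := by
      rw [← Real.log_mul (by norm_num) (by linarith), hcA]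
      exact Real.log_le_log (by linarith) (by linarith)
    have hYd : |(Y : ℝ) - A| ≤ ε / 16 * A := by
      have f1 : (Y : ℝ) ≤ A + A1 := by
        have : Y ≤ A + A1 := by omega
        exact_mod_cast this
      have f2 : (A : ℝ) ≤ Y + 3 * A1 := by
        have : A ≤ Y + 3 * A1 := by omega
        exact_mod_cast this
      have f3 : 3 * (A1 : ℝ) ≤ ε / 16 * A := by
        have g1 : ((n : ℝ) + 1) * A1 ≤ A := by exact_mod_cast hge
        rw [div_le_iff₀ hε] at hnε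
        have g2 : (0 : ℝ) < A1 := by exact_mod_cast hA1pos
        have g3 : 48 * (A1 : ℝ) ≤ (n * ε) * A1 := mul_le_mul_of_nonneg_right hnε g2.le
        have g4 : ε * (((n : ℝ) + 1) * A1) ≤ ε * A := mul_le_mul_of_nonneg_left g1 hε.le
        have g5 : 0 ≤ ε * (A1 : ℝ) := by positivity
        linarith
      have f4 : (0 : ℝ) ≤ A1 := Nat.cast_nonneg _
      rw [abs_le]
      constructor <;> linarith
    exact conv _ (Real.log ((A + 1 : ℕ) : ℝ)) (Real.log A) Y A (GW m r) ε hε hε1 (Nat.cast_nonneg _)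
      (Real.log_nonneg (by linarith)) (Nat.cast_nonneg _) hW0.le hmain.1 (by
        rw [abs_le]
        constructor <;> linarith) hYd
  · intro T hT B
    have h5 := hmain.2 T hT B
    have hset : ∀ p : ℕ, Set.ncard {k | k ∈ Ioc p (p + T) ∧ GGood m r k} =
        ((Ioc p (p + T)).filter (GGood m r)).card := by
      intro p
      rw [← Set.ncard_coe_finset]
      congr 1
      ext k
      simp
    have h6 : (Sm n r m).filter (fun p => Set.ncard {k | k ∈ Ioc p (p + T) ∧ GGood m r k} ∈ B) =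
        (Sm n r m).filter (fun p => ((Ioc p (p + T)).filter (GGood m r)).card ∈ B) := by
      apply Finset.filter_congr
      intro p _
      rw [hset]
    rw [h6]
    refine h5.trans ?_
    have : (0 : ℝ) ≤ (Sm n r m).card := Nat.cast_nonneg _
    nlinarith

end Pool.Agent.Results.MP_484fb8_nt.PrimeSummand
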