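import Pool.Agent.W93.PG7
import Pool.Agent.Y885.WI4
import Pool.Agent.H560R3.GB.Defs

/-!
# Goldbach representations in primorial intervals: random sums with up to two fifths of the scales missing,
and prescribed digits

Definitions used (in `Pool.Agent.H560R3.GB`): `C₂`: the twin prime constant
`∏_{p > 2} (1 - 1 / (p - 1) ^ 2)`; `sing m`: the singular series `2 C₂ ∏_{p ∣ m, p > 2} (p - 1) / (p - 2)`.
-/

set_option autoImplicit false

namespace Pool.Agent.Results.MP_484fb8_nt.RandomSums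

open Finset Pool.Agent.H560R3.GB

/-- `#(n)`: the product of the first `n` primes. -/
noncomputable def P (n : ℕ) : ℕ := ∏ i ∈ range n, Nat.nth Nat.Prime i

/-- The number of primes `p` in the `n`-th primorial interval such that `m - p` is a prime which lies in the
`n`-th or in the `n + 1`-st primorial interval. -/
noncomputable def R (n m : ℕ) : ℕ :=
  ((Icc (P (n - 1) + 1) (P n + 1)).filter
    (fun p => p.Prime ∧ (m - p).Prime ∧ P (n - 1) + 1 ≤ m - p ∧ m - p ≤ P (n + 1) + 1)).card

/-- If `m` belongs to the `n + 1`-st primorial interval (`n ≥ 1`), then `m = p + q` where `p` is a prime in the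
`n`-th primorial interval and `q` is a prime in the `n`-th or in the `n + 1`-st one; moreover, up to a relative
error of at most `ε`, the number of these representations is `sing m * #(n) / log ^ 2 m`. -/
def Holds (ε : ℝ) (m : ℕ) : Prop :=
  ∀ n : ℕ, 1 ≤ n → P n + 1 ≤ m → m ≤ P (n + 1) + 1 →
    (∃ p q : ℕ, p.Prime ∧ q.Prime ∧ m = p + q ∧ P (n - 1) + 1 ≤ p ∧ p ≤ P n + 1 ∧ P (n - 1) + 1 ≤ q ∧ q ≤ P (n + 1) + 1) ∧
    |(R n m : ℝ) - sing m * P n / Real.log m ^ 2| ≤ ε * (sing m * P n / Real.log m ^ 2)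

lemma holds_of (ε : ℝ) (hε : 0 < ε) : ∃ m₀ : ℕ, ∀ m : ℕ, m₀ ≤ m → 2 ∣ m →
    Pool.Agent.W93.PG.WinP (min ε (1 / 2) / 4) 2 m → Holds ε m := by
  obtain ⟨m₀, h0⟩ := Pool.Agent.W93.PG.reps_of_win (min ε (1 / 2)) (lt_min hε (by norm_num))
    ((min_le_right _ _).trans (by norm_num))
  refine ⟨m₀ + 3, ?_⟩
  intro m hm _ hwin n hn h2 h3
  have h4 := h0 m (by omega) hwin n hn h2 h3
  have hm0 : (3 : ℝ) ≤ m := by exact_mod_cast (by omega : 3 ≤ m)
  have hlog : 0 < Real.log m := Real.log_pos (by linarith)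
  have hs := Pool.Agent.W93.GB.one_le_sing m
  have hP : (0 : ℝ) < P n := by exact_mod_cast Pool.Agent.W93.PG.PR_pos n
  have hmain : 0 < sing m * P n / Real.log m ^ 2 := by positivity
  have hR : R n m = Pool.Agent.W93.PG.reps n m := rfl
  have hPR : Pool.Agent.W93.PG.PR n = P n := rfl
  rw [← hR, hPR] at h4
  have h5 : |(R n m : ℝ) - sing m * P n / Real.log m ^ 2| ≤ ε * (sing m * P n / Real.log m ^ 2) :=
    h4.trans (mul_le_mul_of_nonneg_right (min_le_left _ _) hmain.le)
  have h6 : |(R n m : ℝ) - sing m * P n / Real.log m ^ 2| ≤ 1 / 2 * (sing m * P n / Real.log m ^ 2) :=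
    h4.trans (mul_le_mul_of_nonneg_right (min_le_right _ _) hmain.le)
  refine ⟨?_, h5⟩
  have h7 : (0 : ℝ) < R n m := by
    rw [abs_le] at h6
    linarith [h6.1]
  have h8 : 0 < R n m := by exact_mod_cast h7
  unfold R at h8
  rw [card_pos] at h8
  obtain ⟨p, hp⟩ := h8
  rw [mem_filter, mem_Icc] at hp
  obtain ⟨⟨p1, p2⟩, p3, p4, p5, p6⟩ := hp
  exact ⟨p, m - p, p3, p4, by have := p4.pos; omega, p1, p2, p5, p6⟩

/-- The set `J` of scales below `k` is rich: it contains more than three fifths of all the scales, more than one half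
of the `m` lowest scales, and a positive proportion of the `m` highest scales (the last two conditions are
void for `m ≤ D log k`). -/
structure Rich (δ : ℝ) (D k : ℕ) (J : Finset ℕ) : Prop where
  lt : ∀ j ∈ J, j < k
  all : (3 / 5 + δ) * k ≤ (J.card : ℝ)
  low : ∀ m ≤ k, (1 / 2 + δ) * m ≤ ((J.filter fun j => j < m).card : ℝ) + D * Real.log k
  high : ∀ m ≤ k, δ * m ≤ ((J.filter fun j => k - m ≤ j).card : ℝ) + D * Real.log k

open Classical in
/-- The probability of the event `E` if `x 0, ..., x (k - 1)` are independent random integers, where `x j` takes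
its values in the finite set `s j`, and the value `x` with the probability `p j x`. -/
noncomputable def Prob (k : ℕ) (s : ℕ → Finset ℤ) (p : ℕ → ℤ → ℝ) (E : (Fin k → ℤ) → Prop) : ℝ :=
  ∑ x ∈ Fintype.piFinset (fun j : Fin k => s j), if E x then ∏ j : Fin k, p j (x j) else 0

open Classical in
/-- Let `b ≥ 2`, `B ≥ 1`, `D`, `U`, `η > 0`, `δ > 0` and `ε > 0` be fixed, let `k` be large, and let `J` be an arbitrary
rich set of scales below `k`. (1) Let `x 0, ..., x (k - 1)` be arbitrary independent random integers with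
`|x j| ≤ B b ^ j` such that, for all `j` in `J`, no interval of the length `b ^ j / B` contains `x j` with a
probability larger than `1 - η` (nothing is assumed for the other `j`: these `x j` may be constants). Let `c` be an
arbitrary integer with `|c| ≤ B b ^ k`. Then, with a probability of at least `1 - 1 / k ^ U`, the integer
`m = c + x 0 + ... + x (k - 1)` has the following property: if `m` is positive and even, then the assertion of the
problem holds for `m`, and the number of the representations required there is as predicted, up to a relative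
error of at most `ε`. (2) Let `A 0, ..., A (k - 1)` be arbitrary nonempty sets of digits in base `b`, such that
`A j` has at least two elements if `j` is in `J` (the other digits may be prescribed). Then the same property
holds for all the integers `m < b ^ k` whose digit at the place `j` belongs to `A j` for all `j < k`, with at
most `(#A 0 ⋯ #A (k - 1)) / k ^ U` exceptions. -/
theorem result (b B D U : ℕ) (hb : 2 ≤ b) (hB : 1 ≤ B) (η δ ε : ℝ) (hη : 0 < η) (hδ : 0 < δ) (hε : 0 < ε) :
    ∃ k₀ : ℕ, ∀ k : ℕ, k₀ ≤ k → ∀ J : Finset ℕ, Rich δ D k J →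
      (∀ (s : ℕ → Finset ℤ) (p : ℕ → ℤ → ℝ),
        (∀ j < k, (∀ x ∈ s j, 0 ≤ p j x ∧ |x| ≤ (B : ℤ) * (b : ℤ) ^ j) ∧ ∑ x ∈ s j, p j x = 1) →
        (∀ j ∈ J, ∀ y : ℤ, ∑ x ∈ (s j).filter (fun x => y ≤ x ∧ (B : ℤ) * (x - y) ≤ (b : ℤ) ^ j), p j x ≤ 1 - η) →
        ∀ c : ℤ, |c| ≤ (B : ℤ) * (b : ℤ) ^ k →
          Prob k s p (fun x => 0 < c + ∑ j, x j ∧ Even (c + ∑ j, x j) ∧ ¬ Holds ε (c + ∑ j, x j).toNat) ≤
            1 / (k : ℝ) ^ U) ∧
      (∀ A : ℕ → Finset ℕ, (∀ j < k, (A j).Nonempty ∧ ∀ a ∈ A j, a < b) → (∀ j ∈ J, 2 ≤ (A j).card) →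
        (((range (b ^ k)).filter fun m =>
            (∀ j < k, m / b ^ j % b ∈ A j) ∧ 0 < m ∧ Even m ∧ ¬ Holds ε m).card : ℝ) ≤
          (∏ j ∈ range k, ((A j).card : ℝ)) / (k : ℝ) ^ U) := by
  obtain ⟨m₀, h0⟩ := holds_of ε hε
  obtain ⟨k₀, h1⟩ := Pool.Agent.Y885.rs_both b B D 2 U m₀ hb hB η δ _ hη hδ
    (div_pos (lt_min hε (by norm_num : (0 : ℝ) < 1 / 2)) (by norm_num : (0 : ℝ) < 4)) (Holds ε) h0
  refine ⟨k₀, fun k hk J hJ => ?_⟩
  obtain ⟨h2, h3⟩ := h1 k hk J ⟨hJ.lt, hJ.low, hJ.high, hJ.all⟩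
  refine ⟨fun s p hs hp c hc => ?_, h3⟩
  refine le_trans (le_of_eq ?_) (h2 s p hs hp c hc)
  unfold Prob
  apply sum_congr rfl
  intro x _
  split_ifs <;> rfl

end Pool.Agent.Results.MP_484fb8_nt.RandomSums
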