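import Pool.Agent.Y816.PD.UniB

set_option autoImplicit false

/-!
# Goldbach representations in the primorial intervals by almost primes with restricted digits

For every even `m` of the primorial interval `I_(n+1)`, `n` large, the representations `m = p + (m - p)` are
considered, with `p` in `I_n` and `m - p` in `I_n` or `I_(n+1)`, where `p < b ^ K ≤ P n / 2` and the `i`-th digit of `p`
in base `b` belongs to an arbitrary set `A i` for all `i < K`; `K` is the integer part of `log_b (P n / 2)`.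
-/

namespace Pool.Agent.Results.MP_484fb8_nt.RestrictedDigits

open Finset Filter Polynomial
open Pool.Agent.Y816.PD (NA ND Alm WG TP)

/-- the primorial: the product of the first `n` primes -/
noncomputable def P (n : ℕ) : ℕ := ∏ i ∈ range n, Nat.nth Nat.Prime i

lemma P_succ (n : ℕ) : P (n + 1) = P n * Nat.nth Nat.Prime n := Finset.prod_range_succ _ _

lemma P_pos (n : ℕ) : 0 < P n :=
  Finset.prod_pos fun i _ => (Nat.prime_nth_prime i).pos

lemma nth_le (n : ℕ) : Nat.nth Nat.Prime n ≤ P n + 1 := by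
  have h1 : P n + 1 ≠ 1 := by
    have := P_pos n
    omega
  have hq := Nat.minFac_prime h1
  have hqd := Nat.minFac_dvd (P n + 1)
  refine le_trans ?_ (Nat.minFac_le (by omega : 0 < P n + 1))
  by_contra hcon
  rw [not_le] at hcon
  obtain ⟨q, hqq⟩ : ∃ q, q = (P n + 1).minFac := ⟨_, rfl⟩
  rw [← hqq] at hq hqd hcon
  have h2 : Nat.nth Nat.Prime (Nat.count Nat.Prime q) = q := Nat.nth_count hq
  have h3 : Nat.count Nat.Prime q < n := by
    rw [← h2] at hcon
    exact (Nat.nth_lt_nth Nat.infinite_setOfPred_prime).1 hcon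
  have h4 : q ∣ P n := by
    rw [← h2]
    exact Finset.dvd_prod_of_mem _ (Finset.mem_range.2 h3)
  have h5 : q ∣ 1 := (Nat.dvd_add_right h4).1 hqd
  exact hq.one_lt.ne' (Nat.dvd_one.1 h5)

lemma P_ge (n : ℕ) (hn : 1 ≤ n) : (n + 1) * P (n - 1) ≤ P n := by
  obtain ⟨k, rfl⟩ : ∃ k, n = k + 1 := ⟨n - 1, by omega⟩
  rw [Nat.add_sub_cancel, P_succ, mul_comm]
  exact Nat.mul_le_mul_left _ (Nat.add_two_le_nth_prime k)

/-- `p (n - p)` -/
def G (n p : ℕ) : ℤ := (p : ℤ) * ((n : ℤ) - p)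

lemma adm02 (p : ℕ) (hp : p.Prime) : ∃ m : ℕ, ∀ h ∈ ({0, 2} : Finset ℕ), ¬ p ∣ m + h := by
  by_cases h3 : p = 3
  · subst h3
    refine ⟨2, fun h hh => ?_⟩
    rw [mem_insert, mem_singleton] at hh
    rcases hh with rfl | rfl <;> decide
  · refine ⟨1, fun h hh hd => ?_⟩
    rw [mem_insert, mem_singleton] at hh
    rcases hh with rfl | rfl
    · exact hp.one_lt.ne' (Nat.dvd_one.1 hd)
    · exact h3 ((Nat.prime_dvd_prime_iff_eq hp Nat.prime_three).1 hd)

lemma cnt_le {n p : ℕ} (hn : Even n) (hp : p.Prime) :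
    ((range p).filter (fun m : ℕ => (p : ℤ) ∣ G n m)).card ≤
      ((range p).filter (fun m : ℕ => (p : ℤ) ∣ TP {0, 2} 0 m)).card := by
  have hpz := Nat.prime_iff_prime_int.1 hp
  have h1 : (range p).filter (fun m : ℕ => (p : ℤ) ∣ G n m) ⊆ {0, n % p} := by
    intro m hm
    rw [mem_filter, mem_range] at hm
    rw [mem_insert, mem_singleton]
    unfold G at hm
    rcases hpz.dvd_or_dvd hm.2 with h | h
    · left
      exact Nat.eq_zero_of_dvd_of_lt (Int.natCast_dvd_natCast.1 h) hm.1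
    · right
      have h2 : (n : ℤ) ≡ m [ZMOD p] := by
        apply Int.modEq_iff_dvd.2
        have : (m : ℤ) - n = -(n - m) := by ring
        rw [this]
        exact dvd_neg.2 h
      have h3 : n ≡ m [MOD p] := (Int.natCast_modEq_iff).1 h2
      rw [Nat.ModEq] at h3
      rw [h3, Nat.mod_eq_of_lt hm.1]
  by_cases hp2 : p = 2
  · subst hp2
    have h2 : n % 2 = 0 := Nat.even_iff.1 hn
    rw [h2] at h1
    have h3 : ({0, 0} : Finset ℕ).card = 1 := by simp
    refine (card_le_card h1).trans ?_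
    rw [h3]
    apply card_pos.2
    refine ⟨0, ?_⟩
    rw [mem_filter, mem_range, Pool.Agent.Y816.PD.TP_dvd _ _ _ Nat.prime_two]
    exact ⟨by norm_num, 0, by simp, by norm_num⟩
  · have h3 : 3 ≤ p := by
      have := hp.two_le
      omega
    refine (card_le_card h1).trans (card_le_two.trans ?_)
    have h4 : ({0, p - 2} : Finset ℕ) ⊆ (range p).filter (fun m : ℕ => (p : ℤ) ∣ TP {0, 2} 0 m) := by
      intro m hm
      rw [mem_insert, mem_singleton] at hm
      rw [mem_filter, mem_range, Pool.Agent.Y816.PD.TP_dvd _ _ _ hp]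
      rcases hm with rfl | rfl
      · exact ⟨by omega, 0, by simp, by simp⟩
      · refine ⟨by omega, 2, by simp, ?_⟩
        have : 0 + (p - 2) + 2 = p := by omega
        rw [this]
    have h5 : ({0, p - 2} : Finset ℕ).card = 2 := card_pair (by omega)
    exact h5.symm.le.trans (card_le_card h4)

lemma W_le {n : ℕ} (hn : Even n) (x : ℕ) : WG (TP {0, 2} 0) x ≤ WG (G n) x := by
  classical
  unfold WG
  apply Finset.prod_le_prod
  · intro p hp
    rw [mem_filter] at hp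
    have hp0 : (0 : ℝ) < p := by exact_mod_cast hp.2.pos
    rw [sub_nonneg, div_le_one hp0]
    have h1 := card_filter_le (range p) (fun m : ℕ => (p : ℤ) ∣ TP {0, 2} 0 m)
    rw [card_range] at h1
    refine le_trans (le_of_eq ?_) (Nat.cast_le.2 h1)
    congr
  · intro p hp
    rw [mem_filter] at hp
    have hp0 : (0 : ℝ) < p := by exact_mod_cast hp.2.pos
    have h1 : (((range p).filter (fun m : ℕ => (p : ℤ) ∣ G n m)).card : ℝ) ≤
        ((range p).filter (fun m : ℕ => (p : ℤ) ∣ TP {0, 2} 0 m)).card := Nat.cast_le.2 (cnt_le hn hp.2)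
    apply sub_le_sub_left
    apply div_le_div_of_nonneg_right _ hp0.le
    convert h1

/-- The `p` in `I_n` with `m - p` in `I_n` or `I_(n+1)`, such that all prime factors of `p (m - p)` are larger than
`y ^ (1 / r)` and `p (m - p)` has at most `r` prime factors. -/
def Q (n m r y : ℕ) : Set ℕ := {p | (P (n - 1) + 1 ≤ p ∧ p ≤ P n + 1) ∧
  (P (n - 1) + 1 ≤ m - p ∧ m - p ≤ P (n + 1) + 1) ∧ p ∈ Alm (G m) r y}

/-- **Goldbach representations in the primorial intervals by almost primes with restricted digits.** -/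
theorem result :
    ∃ c : ℝ, 0 < c ∧ ∃ r₀ : ℕ, 2 ≤ r₀ ∧ ∀ r : ℕ, r₀ ≤ r → ∀ b : ℕ, 2 ≤ b → ∃ κ C : ℝ, 0 < κ ∧ 0 < C ∧
      ∀ᶠ n : ℕ in atTop, ∀ m : ℕ, Even m → P n + 1 ≤ m → m ≤ P (n + 1) + 1 → ∀ K : ℕ, K = Nat.log b (P n / 2) →
        ∀ A : ℕ → Finset ℕ, (∀ i < K, A i ⊆ range b) → (b : ℝ) ^ K ≤ Real.exp (c * K) * NA K A →
        ((∃ d ∈ A 0, (G m d).natAbs.Coprime b) → (∃ d ∈ A (K - 1), d ≠ 0) →
          κ * NA K A / (K : ℝ) ^ 2 ≤ ND b K A (Q n m r (b ^ K))) ∧
        (ND b K A {p | p.Prime ∧ (m - p).Prime} : ℝ) ≤ C * NA K A * WG (G m) (b ^ K) := by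
  obtain ⟨c, hc, r₀, hr₀, h⟩ := Pool.Agent.Y816.PD.uni_top 2 6 (by norm_num)
  refine ⟨c, hc, r₀, hr₀, fun r hr b hb => ?_⟩
  have h2r : 2 ≤ r := hr₀.trans hr
  obtain ⟨κ, C₁, hκ, hC, h1⟩ := h r hr b hb
  obtain ⟨v, Cv, hv, hCv, hW⟩ := Pool.Agent.Y816.PD.WG_bounds {0, 2} adm02 2 (by decide) b hb
  refine ⟨κ * v, C₁, by positivity, hC, ?_⟩
  obtain ⟨K0, hK0⟩ := eventually_atTop.1 (h1.and hW)
  filter_upwards [eventually_ge_atTop (2 * b ^ (K0 + 4) + 4 * b ^ 2 + 1)] with n hn m heven hm1 hm2 K hK A hA hprod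
  have hb0 : 0 < b := by omega
  obtain ⟨N, hN⟩ : ∃ N, N = P n := ⟨_, rfl⟩
  obtain ⟨A1, hA1⟩ : ∃ A1, A1 = P (n - 1) := ⟨_, rfl⟩
  have hA1pos : 0 < A1 := by rw [hA1]; exact P_pos _
  have hge : (n + 1) * A1 ≤ N := by rw [hN, hA1]; exact P_ge n (by omega)
  have hnN : n + 1 ≤ N := (Nat.le_mul_of_pos_right _ hA1pos).trans hge
  have hsucc : P (n + 1) ≤ N * (N + 1) := by
    rw [P_succ, ← hN]
    apply Nat.mul_le_mul_left
    rw [hN]
    exact nth_le n
  have hpos : 0 < b ^ (K0 + 4) := by positivity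
  rw [← hN] at hK hm1
  have hy : b ^ (K0 + 4) ≤ N / 2 := by omega
  have hKK : K0 + 4 ≤ K := by
    rw [hK]
    exact Nat.le_log_of_pow_le (by omega) hy
  have hb1 : b ^ K ≤ N / 2 := by
    rw [hK]
    exact Nat.pow_log_le_self _ (by omega)
  have hb2 : N / 2 < b ^ (K + 1) := by
    rw [hK]
    exact Nat.lt_pow_succ_log_self (by omega) _
  have hN1 : N + 1 ≤ b ^ (K + 2) := by
    have e1 : N + 1 ≤ 2 * b ^ (K + 1) := by omega
    calc N + 1 ≤ 2 * b ^ (K + 1) := e1
      _ ≤ b * b ^ (K + 1) := Nat.mul_le_mul_right _ hb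
      _ = b ^ (K + 2) := by ring
  have hnb : m ≤ b ^ (3 * K) := by
    calc m ≤ (N + 1) * (N + 1) := by nlinarith
      _ ≤ b ^ (K + 2) * b ^ (K + 2) := Nat.mul_le_mul hN1 hN1
      _ = b ^ (2 * K + 4) := by rw [← pow_add]; congr 1; ring
      _ ≤ b ^ (3 * K) := Nat.pow_le_pow_right hb0 (by omega)
  have hlow : A1 + 1 ≤ b ^ (K - 1) := by
    have e1 : (4 * b ^ 2) * A1 ≤ 2 * (b ^ 2 * b ^ (K - 1)) := by
      calc (4 * b ^ 2) * A1 ≤ (n + 1) * A1 := Nat.mul_le_mul_right _ (by omega)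
        _ ≤ N := hge
        _ ≤ 2 * b ^ (K + 1) := by omega
        _ = 2 * (b ^ 2 * b ^ (K - 1)) := by
          rw [← pow_add]
          congr 2
          omega
    have e2 : b ^ 2 * (2 * A1) ≤ b ^ 2 * b ^ (K - 1) := by
      generalize b ^ (K - 1) = u at *
      nlinarith
    have e3 := Nat.le_of_mul_le_mul_left e2 (by positivity)
    omega
  have hcast : ∀ p, p < b ^ K → G m p = ((p * (m - p) : ℕ) : ℤ) := by
    intro p hp
    unfold G
    push_cast [Nat.cast_sub (by omega : p ≤ m)]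
    ring
  obtain ⟨hK1, hK2⟩ := hK0 K (by omega)
  have hpoly : ∃ P : ℤ[X], P.natDegree ≤ 2 ∧ ∀ k : ℕ, P.eval (k : ℤ) = G m k := by
    refine ⟨X * (C (m : ℤ) - X), ?_, fun k => ?_⟩
    · compute_degree
    · unfold G
      simp only [eval_mul, eval_sub, eval_X, eval_C]
  have hadm : ∀ p : ℕ, p.Prime → ∃ k : ℕ, ¬ (p : ℤ) ∣ G m k := by
    intro p hp
    obtain ⟨j, hj⟩ := Pool.Agent.Y816.PD.adm_gold (N := (m : ℤ)) (by exact_mod_cast heven) 0 p hp
    refine ⟨j, ?_⟩
    unfold G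
    simpa using hj
  have hsize : ∀ k : ℕ, k < b ^ K → (G m k).natAbs ≤ b ^ (6 * K) := by
    intro k hk
    rw [hcast k hk, Int.natAbs_natCast]
    calc k * (m - k) ≤ b ^ K * b ^ (3 * K) := Nat.mul_le_mul hk.le (by omega)
      _ = b ^ (4 * K) := by rw [← pow_add]; congr 1; ring
      _ ≤ b ^ (6 * K) := Nat.pow_le_pow_right hb0 (by omega)
  obtain ⟨h2, h3⟩ := hK1 (G m) hpoly hadm hsize A hA hprod
  have hNA := Pool.Agent.Y816.PD.NA_nonneg K A
  constructor
  · intro hd htop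
    calc κ * v * NA K A / (K : ℝ) ^ 2 = κ * NA K A * (v / (K : ℝ) ^ 2) := by ring
      _ ≤ κ * NA K A * WG (G m) (b ^ K) :=
          mul_le_mul_of_nonneg_left ((hK2 0).1.trans (W_le heven _)) (by positivity)
      _ ≤ _ := h2 hd htop
      _ ≤ _ := by
          apply Nat.cast_le.2
          apply Pool.Agent.Y816.PD.ND_mono'
          intro p hp hpS
          have g1 := hpS.1
          refine ⟨⟨?_, ?_⟩, ⟨?_, ?_⟩, hpS.2⟩
          · rw [← hA1]
            omega
          · rw [← hN]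
            omega
          · rw [← hA1]
            have g2 : A1 * 2 ≤ N := by nlinarith
            omega
          · omega
  · refine le_trans (Nat.cast_le.2 ?_) h3
    apply Pool.Agent.Y816.PD.ND_mono'
    rintro p hp ⟨g1, g2⟩ l hl hd
    rw [hcast p hp, Int.natCast_dvd_natCast] at hd
    refine Pool.Agent.Y816.PD.lt_pow_of_le hl ?_ h2r
    rcases (Nat.Prime.dvd_mul hl).1 hd with h4 | h4
    · exact ((Nat.prime_dvd_prime_iff_eq hl g1).1 h4).ge
    · rw [(Nat.prime_dvd_prime_iff_eq hl g2).1 h4]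
      omega

end Pool.Agent.Results.MP_484fb8_nt.RestrictedDigits
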